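import Pool.Agent.H6.GB.Geo2

/-!
# Trees: gates, rays and horofunctions
-/

set_option autoImplicit false

namespace Pool.Agent.H6.GB

open SimpleGraph

section tree

variable {V : Type} {T : SimpleGraph V}


/-- points on geodesics -/
theorem exists_pt (hT : T.IsTree) (x y : V) : ∀ k : ℕ, k ≤ T.dist x y →
    ∃ z, T.dist x z = k ∧ Btw T x z y := by
  intro k
  induction k with
  | zero =>
    intro _
    exact ⟨x, dist_self, by unfold Btw; rw [dist_self, zero_add]⟩
  | succ k ih =>
    intro hk
    obtain ⟨z, hz, hb⟩ := ih (by omega)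
    unfold Btw at hb
    have hne : z ≠ y := by
      rintro rfl
      omega
    obtain ⟨u, hu, hd⟩ := toward hT (y := y) hne
    have a1 : T.dist z u = 1 := dist_eq_one_iff_adj.2 hu
    have c1 := dist_comm (G := T) (u := y) (v := z)
    have c2 := dist_comm (G := T) (u := y) (v := u)
    have t1 := tri hT x z u
    have t2 := tri hT x u y
    refine ⟨u, by omega, ?_⟩
    unfold Btw
    omega

/-- points on geodesics are unique -/
theorem uniq (hT : T.IsTree) {x y z z' : V} (h : Btw T x z y) (h' : Btw T x z' y)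
    (hd : T.dist x z = T.dist x z') : z = z' := by
  have a1 := fp hT z z' x y
  unfold Btw at h h'
  have c1 := dist_comm (G := T) (u := x) (v := z)
  have c2 := dist_comm (G := T) (u := x) (v := z')
  have h0 : T.dist z z' = 0 := by omega
  exact (hT.connected.dist_eq_zero_iff).1 h0

/-- two points on a geodesic -/
theorem dist_of_btw (hT : T.IsTree) {x y z z' : V} (h : Btw T x z y) (h' : Btw T x z' y)
    (hd : T.dist x z ≤ T.dist x z') : T.dist z z' = T.dist x z' - T.dist x z := by
  have a1 := fp hT z z' x y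
  unfold Btw at h h'
  have c1 := dist_comm (G := T) (u := x) (v := z)
  have c2 := dist_comm (G := T) (u := x) (v := z')
  have t1 := tri hT x z z'
  omega

theorem btw_of_btw (hT : T.IsTree) {x y z z' : V} (h : Btw T x z y) (h' : Btw T x z' y)
    (hd : T.dist x z ≤ T.dist x z') : Btw T z z' y ∧ Btw T x z z' := by
  have a1 := dist_of_btw hT h h' hd
  unfold Btw at *
  constructor <;> omega

theorem btw_trans {x y z w : V} (hT : T.IsTree) (h : Btw T x z y) (h' : Btw T x y w) :
    Btw T x z w := by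
  unfold Btw at *
  have t1 := tri hT x z w
  have t2 := tri hT z y w
  omega

/-- convex sets of vertices -/
def Cvx (T : SimpleGraph V) (S : Set V) : Prop := ∀ u v w, u ∈ S → w ∈ S → Btw T u v w → v ∈ S

/-- the gate of a point in a convex set -/
theorem gate (hT : T.IsTree) {S : Set V} (hS : Cvx T S) (hne : S.Nonempty) (y : V) :
    ∃ u ∈ S, ∀ z ∈ S, Btw T y u z := by
  classical
  have hne' : Nonempty S := hne.to_subtype
  obtain ⟨⟨u, huS⟩, hu⟩ : ∃ x : S, ∀ z : S, T.dist y x ≤ T.dist y z :=
    ⟨Function.argmin (fun z : S => T.dist y z),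
      fun z => Function.argmin_le (fun z : S => T.dist y z) z⟩
  refine ⟨u, huS, fun z hz => ?_⟩
  by_cases huz : u = z
  · subst huz
    unfold Btw
    rw [dist_self, add_zero]
  obtain ⟨t, ht, hd⟩ := toward hT (y := z) (z := u) huz
  have a1 : T.dist u t = 1 := dist_eq_one_iff_adj.2 ht
  have c1 := dist_comm (G := T) (u := z) (v := u)
  have c2 := dist_comm (G := T) (u := z) (v := t)
  have htS : t ∈ S := by
    refine hS u t z huS hz ?_
    unfold Btw
    omega
  have h2 := hu ⟨t, htS⟩
  simp only at h2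
  have h3 : T.dist y t = T.dist y u + 1 := by
    rcases hT.dist_eq_dist_add_one_of_adj y ht with h3 | h3
    · omega
    · exact h3
  have h4 := cut hT ht.symm h3 _ z rfl (by omega)
  unfold Btw
  omega

/-- rays -/
def Ray (T : SimpleGraph V) (f : ℕ → V) : Prop := ∀ i k : ℕ, T.dist (f i) (f (i + k)) = k

/-- the horofunction of a ray -/
theorem Ray.horo (hT : T.IsTree) {f : ℕ → V} (hf : Ray T f) (x : V) :
    ∃ (b : ℤ) (k : ℕ), ∀ i, k ≤ i → (T.dist (f i) x : ℤ) = i - b := by
  classical
  let t : ℕ → ℕ := fun i => T.dist (f 0) x + T.dist (f i) x - i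
  have h0 : ∀ i, i ≤ T.dist (f 0) x + T.dist (f i) x := by
    intro i
    have h1 := hf 0 i
    rw [zero_add] at h1
    have h2 := tri hT (f 0) x (f i)
    rw [dist_comm (u := x)] at h2
    omega
  have hmono : ∀ i k, t (i + k) ≤ t i := by
    intro i k
    have h1 := hf i k
    have h2 := tri hT (f (i + k)) (f i) x
    rw [dist_comm (u := f (i + k)) (v := f i)] at h2
    show T.dist (f 0) x + T.dist (f (i + k)) x - (i + k) ≤ T.dist (f 0) x + T.dist (f i) x - i
    have := h0 i
    omega
  obtain ⟨k, hk⟩ : ∃ k : ℕ, ∀ i, t k ≤ t i :=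
    ⟨Function.argmin t, fun i => Function.argmin_le t i⟩
  refine ⟨(T.dist (f 0) x : ℤ) - t k, k, fun i hi => ?_⟩
  obtain ⟨j, rfl⟩ := Nat.exists_eq_add_of_le hi
  have h1 : t (k + j) = t k := le_antisymm (hmono k j) (hk _)
  have h2 := h0 (k + j)
  have h3 : (t (k + j) : ℤ) = T.dist (f 0) x + T.dist (f (k + j)) x - (k + j : ℕ) := by
    show ((T.dist (f 0) x + T.dist (f (k + j)) x - (k + j) : ℕ) : ℤ) = _
    rw [Nat.cast_sub h2]
    push_cast
    ring
  rw [← h1, h3]
  ring

/-- **two rays**: they have a common tail, or some vertex separates their ends -/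
theorem two_rays (hT : T.IsTree) {f f' : ℕ → V} (hf : Ray T f) (hf' : Ray T f') :
    (∃ w : V, ∀ k : ℕ, ∃ i j, k ≤ i ∧ k ≤ j ∧ Btw T (f i) w (f' j)) ∨
      ∃ p q : ℕ, ∀ j, f' (j + p) = f (j + q) := by
  choose β K hβ using fun x => hf.horo hT x
  have hadj' : ∀ j, T.Adj (f' j) (f' (j + 1)) := fun j => dist_eq_one_iff_adj.1 (hf' j 1)
  by_cases hA : ∀ j, β (f' (j + 1)) = β (f' j) + 1
  · right
    have hB : ∀ j, β (f' j) = β (f' 0) + j := by
      intro j
      induction j with
      | zero => simp
      | succ j ih =>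
        rw [hA, ih]
        push_cast
        ring
    obtain ⟨a, ha⟩ : ∃ a, a = β (f' 0) := ⟨_, rfl⟩
    obtain ⟨p, hp⟩ : ∃ p : ℕ, p = K (f' 0) + a.natAbs := ⟨_, rfl⟩
    obtain ⟨q, hq⟩ : ∃ q : ℕ, (q : ℤ) = p + a := ⟨(p + a).toNat, by omega⟩
    refine ⟨p, q, fun j => ?_⟩
    -- both points are on the geodesic from `f' 0` to `f i`
    obtain ⟨i, hi⟩ : ∃ i, i = K (f' 0) + K (f' (j + p)) + (j + q) := ⟨_, rfl⟩
    have e1 := hβ (f' 0) i (by omega)
    have e2 := hβ (f' (j + p)) i (by omega)
    have e3 := hβ (f' 0) (j + q) (by omega)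
    have e4 := hf' 0 (j + p)
    rw [zero_add] at e4
    have e5 := hf (j + q) (i - (j + q))
    rw [Nat.add_sub_cancel' (by omega : j + q ≤ i)] at e5
    rw [hB, ← ha] at e2
    rw [← ha] at e1 e3
    have c1 := dist_comm (G := T) (u := f' 0) (v := f i)
    have c2 := dist_comm (G := T) (u := f i) (v := f' (j + p))
    have c3 := dist_comm (G := T) (u := f' 0) (v := f (j + q))
    refine uniq hT (x := f' 0) (y := f i) ?_ ?_ ?_
    · unfold Btw
      omega
    · unfold Btw
      omega
    · omega
  · left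
    push Not at hA
    obtain ⟨j0, hj0⟩ := hA
    have hpm : ∀ j, β (f' (j + 1)) = β (f' j) + 1 ∨ β (f' (j + 1)) = β (f' j) - 1 := by
      intro j
      have e1 := hβ (f' j) (K (f' j) + K (f' (j + 1))) (by omega)
      have e2 := hβ (f' (j + 1)) (K (f' j) + K (f' (j + 1))) (by omega)
      rcases hT.dist_eq_dist_add_one_of_adj (f (K (f' j) + K (f' (j + 1)))) (hadj' j) with h | h
      · left; omega
      · right; omega
    have hdec : ∀ t, β (f' (j0 + t + 1)) = β (f' (j0 + t)) - 1 := by
      intro t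
      induction t with
      | zero => exact (hpm j0).resolve_left hj0
      | succ t ih =>
        rcases hpm (j0 + t + 1) with h | h
        · exfalso
          obtain ⟨i, hi⟩ : ∃ i, i = K (f' (j0 + t)) + K (f' (j0 + t + 1)) + K (f' (j0 + t + 1 + 1)) :=
            ⟨_, rfl⟩
          have e1 := hβ (f' (j0 + t)) i (by omega)
          have e2 := hβ (f' (j0 + t + 1)) i (by omega)
          have e3 := hβ (f' (j0 + t + 1 + 1)) i (by omega)
          have h1 := unique_toward hT (y := f i) (hadj' (j0 + t)).symm (hadj' (j0 + t + 1))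
            (by omega) (by omega)
          have h2 := hf' (j0 + t) 2
          rw [show j0 + t + 2 = j0 + t + 1 + 1 by ring, ← h1, SimpleGraph.dist_self] at h2
          omega
        · exact h
    have hdec' : ∀ t : ℕ, β (f' (j0 + t)) = β (f' j0) - t := by
      intro t
      induction t with
      | zero => simp
      | succ t ih =>
        rw [← add_assoc, hdec, ih]
        push_cast
        ring
    refine ⟨f' j0, fun k => ?_⟩
    refine ⟨k + K (f' j0) + K (f' (j0 + k)), j0 + k, by omega, by omega, ?_⟩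
    have e1 := hβ (f' j0) (k + K (f' j0) + K (f' (j0 + k))) (by omega)
    have e2 := hβ (f' (j0 + k)) (k + K (f' j0) + K (f' (j0 + k))) (by omega)
    have e3 := hf' j0 k
    rw [hdec'] at e2
    unfold Btw
    omega

/-- a family of convex sets without common point gives a ray -/
theorem exists_ray (hT : T.IsTree) {A : Type} [Nonempty A] (S : A → Set V) (hS : ∀ a, Cvx T (S a))
    (hne : ∀ a, (S a).Nonempty) (hdir : ∀ a b, ∃ c, S c ⊆ S a ∧ S c ⊆ S b)
    (hemp : ∀ v : V, ∃ a, v ∉ S a) :
    ∃ f : ℕ → V, Ray T f ∧ ∀ a, ∃ k, ∀ i, k ≤ i → f i ∈ S a := by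
  classical
  obtain ⟨o⟩ := hT.1.nonempty
  choose p hpS hp using fun a => gate hT (hS a) (hne a) o
  have hle : ∀ a c, S c ⊆ S a → Btw T o (p a) (p c) := fun a c h => hp a _ (h (hpS c))
  -- the distances are unbounded
  have hunb : ∀ M : ℕ, ∃ a, M ≤ T.dist o (p a) := by
    intro M
    by_contra hcon
    push Not at hcon
    have hbdd : ∃ a, ∀ b, T.dist o (p b) ≤ T.dist o (p a) := by
      let g : A → ℕ := fun a => M - T.dist o (p a)
      refine ⟨Function.argmin g, fun b => ?_⟩
      have h1 : g (Function.argmin g) ≤ g b := Function.argmin_le g b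
      have h2 := hcon b
      have h3 := hcon (Function.argmin g)
      have h4 : M - T.dist o (p (Function.argmin g)) ≤ M - T.dist o (p b) := h1
      omega
    obtain ⟨a, ha⟩ := hbdd
    obtain ⟨b, hb⟩ := hemp (p a)
    obtain ⟨c, hca, hcb⟩ := hdir a b
    have h1 := hle a c hca
    unfold Btw at h1
    have h2 := ha c
    have h3 : T.dist (p a) (p c) = 0 := by omega
    rw [hT.connected.dist_eq_zero_iff] at h3
    exact hb (h3 ▸ hcb (hpS c))
  choose α hα using hunb
  choose f hfd hfb using fun i => exists_pt hT o (p (α i)) i (hα i)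
  -- the points do not depend on the choices
  have hind : ∀ i a, i ≤ T.dist o (p a) → Btw T o (f i) (p a) := by
    intro i a hi
    obtain ⟨z, hz, hzb⟩ := exists_pt hT o (p a) i hi
    obtain ⟨c, hca, hcb⟩ := hdir a (α i)
    have h1 := btw_trans hT hzb (hle a c hca)
    have h2 := btw_trans hT (hfb i) (hle (α i) c hcb)
    have h3 : z = f i := uniq hT h1 h2 (by rw [hz, hfd])
    rw [← h3]
    exact hzb
  refine ⟨f, ?_, ?_⟩
  · intro i k
    have h1 := hind i (α (i + k)) ((Nat.le_add_right i k).trans (hα _))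
    have h2 := hfb (i + k)
    rw [dist_of_btw hT h1 h2 (by rw [hfd, hfd]; omega), hfd, hfd]
    omega
  · intro a
    refine ⟨T.dist o (p a), fun i hi => ?_⟩
    obtain ⟨c, hca, hcb⟩ := hdir a (α i)
    have h1 := hle a c hca
    have h2 := btw_trans hT (hfb i) (hle (α i) c hcb)
    have h3 := (btw_of_btw hT h1 h2 (by rw [hfd]; exact hi)).1
    exact hS a _ _ _ (hpS a) (hca (hpS c)) h3

end tree

end Pool.Agent.H6.GB
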