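import Pool.Agent.H6.GB.Main
import Pool.Agent.H6.NT.Ray

/-!
# Commensurated locally polycyclic subgroups of groups which act on trees
-/

set_option autoImplicit false

namespace Pool.Agent.H6.GB

open SimpleGraph
open scoped commutatorElement
open Pool.Agent.N77.CP (Csd Mx SL mem_map_conj)
open Pool.Agent.H6.VF (Ds Ds_eq Ds_mono Ds_le)

section action

variable {V : Type} {T : SimpleGraph V} {Γ : Type} [Group Γ] [MulAction Γ V]

theorem cvx_fix (hadj : ∀ (γ : Γ) (x y : V), T.Adj x y → T.Adj (γ • x) (γ • y)) (hT : T.IsTree)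
    (E : Set Γ) : Cvx T {v : V | ∀ e ∈ E, e • v = v} :=
  fun _ _ _ hu hw hb e he => fix_btw hadj hT (hu e he) (hw e he) hb

/-- a locally elliptic group fixes a vertex if a subgroup of finite index does -/
theorem fix_of_finite (hadj : ∀ (γ : Γ) (x y : V), T.Adj x y → T.Adj (γ • x) (γ • y))
    (hT : T.IsTree) {B B' : Subgroup Γ} (hfi : B'.relIndex B ≠ 0)
    (hloc : ∀ E : Finset Γ, (E : Set Γ) ⊆ B → ∃ v : V, ∀ e ∈ E, e • v = v)
    {w : V} (hw : ∀ b ∈ B', b • w = w) : ∃ v : V, ∀ b ∈ B, b • v = v := by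
  classical
  have hfi' : (B'.subgroupOf B).FiniteIndex := ⟨hfi⟩
  obtain ⟨K, hK⟩ : ∃ K : Subgroup B, K = (B'.subgroupOf B).normalCore := ⟨_, rfl⟩
  have hKn : K.Normal := by rw [hK]; infer_instance
  have hKf : K.FiniteIndex := by rw [hK]; infer_instance
  have hKw : ∀ c ∈ K, (c : Γ) • w = w := by
    intro c hc
    rw [hK] at hc
    exact hw _ ((B'.subgroupOf B).normalCore_le hc)
  have hfq : Finite (B ⧸ K) := inferInstance
  have hft : Fintype (B ⧸ K) := Fintype.ofFinite _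
  obtain ⟨y, hy⟩ := hloc (Finset.univ.image (fun q : B ⧸ K => ((Quotient.out q : B) : Γ))) (by
    intro x hx
    rw [Finset.mem_coe, Finset.mem_image] at hx
    obtain ⟨q, -, rfl⟩ := hx
    exact (Quotient.out q : B).2)
  obtain ⟨u, hu, hug⟩ := gate hT (S := {v : V | ∀ c : Γ, c ∈ K.map B.subtype → c • v = v})
    (fun a b c ha hc hb e he => fix_btw hadj hT (ha e he) (hc e he) hb)
    ⟨w, by
      rintro _ ⟨c, hc, rfl⟩
      exact hKw c hc⟩ y
  refine ⟨u, fun b hb => ?_⟩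
  obtain ⟨e, he⟩ : ∃ e : B, e = (Quotient.out ((⟨b, hb⟩ : B) : B ⧸ K) : B) := ⟨_, rfl⟩
  have h1 : e⁻¹ * ⟨b, hb⟩ ∈ K := by
    rw [he, ← QuotientGroup.eq]
    exact Quotient.out_eq _
  have h2 : (e : Γ) • y = y := by
    apply hy
    rw [Finset.mem_image]
    exact ⟨_, Finset.mem_univ _, by rw [he]⟩
  have h3 : (((e⁻¹ * ⟨b, hb⟩ : B)) : Γ) • u = u := hu _ ⟨_, h1, rfl⟩
  have h4 : b • u = (e : Γ) • u := by
    have h5 : (((e⁻¹ * ⟨b, hb⟩ : B)) : Γ) = (e : Γ)⁻¹ * b := rfl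
    rw [h5, mul_smul, inv_smul_eq_iff] at h3
    exact h3
  rw [h4]
  have h5 : (e : Γ) • u ∈ {v : V | ∀ c : Γ, c ∈ K.map B.subtype → c • v = v} := by
    rintro _ ⟨c, hc, rfl⟩
    have h6 := hKn.conj_mem c hc e⁻¹
    have h7 := hu _ ⟨_, h6, rfl⟩
    have h8 : B.subtype (e⁻¹ * c * e⁻¹⁻¹) = (e : Γ)⁻¹ * (c : Γ) * e := by
      rw [inv_inv]
      rfl
    rw [h8, mul_smul, mul_smul, inv_smul_eq_iff] at h7
    exact h7
  have h6 := hug _ h5
  unfold Btw at h6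
  have h7 : T.dist y ((e : Γ) • u) = T.dist y u := by
    nth_rewrite 1 [← h2]
    exact ds hadj hT _ _ _
  have h8 : T.dist u ((e : Γ) • u) = 0 := by omega
  exact ((hT.connected.dist_eq_zero_iff).1 h8).symm

theorem Ray.smul (hadj : ∀ (γ : Γ) (x y : V), T.Adj x y → T.Adj (γ • x) (γ • y))
    (hT : T.IsTree) {f : ℕ → V} (hf : Ray T f) (g : Γ) : Ray T (fun i => g • f i) := by
  intro i k
  show T.dist (g • f i) (g • f (i + k)) = _
  rw [ds hadj hT]
  exact hf i k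

/-- a commensurated locally elliptic group without fixed vertex: the whole group fixes an end -/
theorem loc_dich (hadj : ∀ (γ : Γ) (x y : V), T.Adj x y → T.Adj (γ • x) (γ • y))
    (hT : T.IsTree) {B : Subgroup Γ} (hcsd : Csd B)
    (hloc : ∀ E : Finset Γ, (E : Set Γ) ⊆ B → ∃ v : V, ∀ e ∈ E, e • v = v)
    (hno : ∀ v : V, ∃ b ∈ B, b • v ≠ v) :
    ∃ f : ℕ → V, Ray T f ∧ ∀ n : Γ, ∃ p q : ℕ, ∀ j, n • f (j + p) = f (j + q) := by
  classical
  have hne : Nonempty {E : Finset Γ // (E : Set Γ) ⊆ B} := ⟨⟨∅, by simp⟩⟩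
  obtain ⟨f, hf, hfB⟩ := exists_ray hT (A := {E : Finset Γ // (E : Set Γ) ⊆ B})
    (fun E => {v : V | ∀ e ∈ (E.1 : Set Γ), e • v = v}) (fun E => cvx_fix hadj hT _)
    (fun E => by
      obtain ⟨v, hv⟩ := hloc E.1 E.2
      exact ⟨v, fun e he => hv e he⟩)
    (fun E F => ⟨⟨E.1 ∪ F.1, by
      rw [Finset.coe_union]
      exact Set.union_subset E.2 F.2⟩, fun v hv e he => hv e (by
        rw [Finset.coe_union]
        exact Or.inl he), fun v hv e he => hv e (by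
        rw [Finset.coe_union]
        exact Or.inr he)⟩)
    (fun v => by
      obtain ⟨b, hb, hbv⟩ := hno v
      refine ⟨⟨{b}, by simpa using hb⟩, fun h => hbv (h b ?_)⟩
      simp)
  have hfb : ∀ b ∈ B, ∃ k, ∀ i, k ≤ i → b • f i = f i := by
    intro b hb
    obtain ⟨k, hk⟩ := hfB ⟨{b}, by simpa using hb⟩
    exact ⟨k, fun i hi => hk i hi b (by simp)⟩
  refine ⟨f, hf, fun n => ?_⟩
  rcases two_rays hT hf (hf.smul hadj hT n) with ⟨w, hw⟩ | h
  · exfalso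
    have h1 : (B ⊓ B.map (MulAut.conj n).toMonoidHom).relIndex B ≠ 0 := by
      rw [inf_comm, Subgroup.inf_relIndex_right]
      exact hcsd n
    obtain ⟨v, hv⟩ := fix_of_finite hadj hT h1 hloc (w := w) (by
      intro b hb
      obtain ⟨k1, hk1⟩ := hfb b hb.1
      have hb2 : b ∈ B.map (MulAut.conj n).toMonoidHom := hb.2
      rw [mem_map_conj] at hb2
      obtain ⟨k2, hk2⟩ := hfb _ hb2
      obtain ⟨i, j, hi, hj, hij⟩ := hw (max k1 k2)
      refine fix_btw hadj hT (hk1 i ((le_max_left _ _).trans hi)) ?_ hij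
      have h3 := hk2 j ((le_max_right _ _).trans hj)
      rw [mul_smul, mul_smul, inv_smul_eq_iff] at h3
      exact h3)
    obtain ⟨b, hb, hbv⟩ := hno v
    exact hbv (hv b hb)
  · exact h

/-- a line preserved by a commensurated subgroup which contains a translation is invariant -/
theorem line_case (hadj : ∀ (γ : Γ) (x y : V), T.Adj x y → T.Adj (γ • x) (γ • y))
    (hT : T.IsTree) (hinv : ∀ (g : Γ) (u v : V), T.Adj u v → ¬ (g • u = v ∧ g • v = u))
    {B : Subgroup Γ} (hcsd : Csd B) {f : ℤ → V} {t : ℤ} {c : Γ} (hf : Line T f) (hc : c ∈ B)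
    (hcf : Tr c f t) (hBf : B ≤ Pr Γ f) (g : Γ) : g ∈ Pr Γ f := by
  have key : ∀ g : Γ, ∀ i, ∃ j, g • f i = f j := by
    intro g
    obtain ⟨k, hk, hkB⟩ : ∃ k : ℤ, k ≠ 0 ∧ g * c ^ k * g⁻¹ ∈ B := by
      have h1 := hcsd g⁻¹
      obtain ⟨m, hm0, hmB⟩ := Pool.Agent.Q152.TC.pow_mem_of_relIndex h1 hc
      refine ⟨m, by exact_mod_cast hm0.ne', ?_⟩
      rw [mem_map_conj, inv_inv] at hmB
      rw [zpow_natCast]
      exact hmB
    have h1 := (hcf.pow hk).conj g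
    have h2 := hf.smul hadj hT g
    obtain ⟨t', h4⟩ := tr_of_pres hadj hT hinv hf (hBf hkB).1 (h1.nofix hadj hT h2)
    exact Tr.unique hadj hT hf h2 h4 h1
  exact ⟨key g, key g⁻¹⟩

theorem Q_of_poly (hadj : ∀ (γ : Γ) (x y : V), T.Adj x y → T.Adj (γ • x) (γ • y))
    (hT : T.IsTree) (hinv : ∀ (g : Γ) (u v : V), T.Adj u v → ¬ (g • u = v ∧ g • v = u))
    (B : Subgroup Γ) (hsol : Group.IsSolvable B) (hm : Mx B) : Q Γ T B := by
  obtain ⟨n, hn⟩ := Pool.Agent.N77.CP.exists_SL hsol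
  have hbot : Q Γ T (⊥ : Subgroup Γ) := by
    obtain ⟨v⟩ := hT.1.nonempty
    refine Or.inl ⟨v, fun k hk => ?_⟩
    rw [Subgroup.mem_bot] at hk
    rw [hk, one_smul]
  exact poly_ind (Q Γ T) hbot
    (fun H b hH h1 h2 => Q_step hadj hT hinv h1 h2 hH) n B hn hm

/-- all finitely generated subgroups are polycyclic -/
def LPoly (B : Subgroup Γ) : Prop := ∀ E : Finset Γ, (E : Set Γ) ⊆ B →
  Group.IsSolvable (Subgroup.closure (E : Set Γ)) ∧ Mx (Subgroup.closure (E : Set Γ))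

/-- **the trichotomy** for a commensurated locally polycyclic subgroup -/
theorem dich (hadj : ∀ (γ : Γ) (x y : V), T.Adj x y → T.Adj (γ • x) (γ • y))
    (hT : T.IsTree) (hinv : ∀ (g : Γ) (u v : V), T.Adj u v → ¬ (g • u = v ∧ g • v = u))
    {B : Subgroup Γ} (hcsd : Csd B) (hLP : LPoly B) :
    (∃ v : V, ∀ b ∈ B, b • v = v) ∨ (∃ f : ℤ → V, Line T f ∧ ∀ g : Γ, g ∈ Pr Γ f) ∨
      ∃ f : ℕ → V, Ray T f ∧ ∀ n : Γ, ∃ p q : ℕ, ∀ j, n • f (j + p) = f (j + q) := by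
  classical
  by_cases h : ∀ E : Finset Γ, (E : Set Γ) ⊆ B → ∃ v : V, ∀ e ∈ E, e • v = v
  · by_cases hno : ∀ v : V, ∃ b ∈ B, b • v ≠ v
    · exact Or.inr (Or.inr (loc_dich hadj hT hcsd h hno))
    · push Not at hno
      exact Or.inl hno
  · push Not at h
    obtain ⟨E, hE, hno⟩ := h
    right
    left
    have hQ := Q_of_poly hadj hT hinv _ (hLP E hE).1 (hLP E hE).2
    rcases hQ with ⟨v, hv⟩ | ⟨f, t, c, hf, hc, hcf, hBf⟩
    · exfalso
      obtain ⟨e, he, hev⟩ := hno v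
      exact hev (hv e (Subgroup.subset_closure he))
    · refine ⟨f, hf, fun g => line_case hadj hT hinv hcsd hf
        ((Subgroup.closure_le B).2 hE hc) hcf ?_ g⟩
      intro b hb
      have hE1 : ((insert b E : Finset Γ) : Set Γ) ⊆ B := by
        rw [Finset.coe_insert, Set.insert_subset_iff]
        exact ⟨hb, hE⟩
      have hcE1 : c ∈ Subgroup.closure ((insert b E : Finset Γ) : Set Γ) :=
        Subgroup.closure_mono (by rw [Finset.coe_insert]; exact Set.subset_insert _ _) hc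
      have hbE1 : b ∈ Subgroup.closure ((insert b E : Finset Γ) : Set Γ) :=
        Subgroup.subset_closure (by simp)
      rcases Q_of_poly hadj hT hinv _ (hLP _ hE1).1 (hLP _ hE1).2 with
        ⟨v, hv⟩ | ⟨f', t', c', hf', hc', hcf', hBf'⟩
      · exact absurd (hv c hcE1) (hcf.nofix hadj hT hf v)
      · obtain ⟨t'', h4⟩ := tr_of_pres hadj hT hinv hf' (hBf' hcE1).1 (hcf.nofix hadj hT hf)
        have h5 := Tr.unique hadj hT hf hf' hcf h4
        have h6 := Tr.unique hadj hT hf' hf h4 hcf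
        have h7 := hBf' hbE1
        constructor
        · intro i
          obtain ⟨k, hk⟩ := h6 i
          obtain ⟨l, hl⟩ := h7.1 k
          obtain ⟨m, hm⟩ := h5 l
          exact ⟨m, by rw [hk, hl, hm]⟩
        · intro i
          obtain ⟨k, hk⟩ := h6 i
          obtain ⟨l, hl⟩ := h7.2 k
          obtain ⟨m, hm⟩ := h5 l
          exact ⟨m, by rw [hk, hl, hm]⟩

end action

section solv

variable {V : Type} {T : SimpleGraph V} {Γ : Type} [Group Γ] [MulAction Γ V]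

theorem Ds_succ_le {K : Subgroup Γ} {m : ℕ} {L : Subgroup Γ} (h : Ds K m ≤ L) :
    ∀ d, Ds K (m + d) ≤ Ds L d
  | 0 => h
  | d + 1 => Subgroup.commutator_mono (Ds_succ_le h d) (Ds_succ_le h d)

/-- `n` shifts the tail of `f` by `a` -/
def Sh (f : ℕ → V) (n : Γ) (a : ℤ) : Prop :=
  ∃ k : ℕ, ∀ J : ℕ, k ≤ J → ∃ J' : ℕ, (J' : ℤ) = J + a ∧ n • f J = f J'

theorem Sh.mul {f : ℕ → V} {n m : Γ} {a b : ℤ} (hn : Sh f n a) (hm : Sh f m b) :
    Sh f (n * m) (a + b) := by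
  obtain ⟨k, hk⟩ := hn
  obtain ⟨l, hl⟩ := hm
  refine ⟨k + l + b.natAbs, fun J hJ => ?_⟩
  obtain ⟨J', h1, h2⟩ := hl J (by omega)
  obtain ⟨J'', h3, h4⟩ := hk J' (by omega)
  exact ⟨J'', by omega, by rw [mul_smul, h2, h4]⟩

theorem Sh.inv {f : ℕ → V} {n : Γ} {a : ℤ} (hn : Sh f n a) : Sh f n⁻¹ (-a) := by
  obtain ⟨k, hk⟩ := hn
  refine ⟨k + a.natAbs, fun J hJ => ?_⟩
  obtain ⟨J0, hJ0⟩ : ∃ J0 : ℕ, (J0 : ℤ) = J - a := ⟨(J - a).toNat, by omega⟩
  obtain ⟨J', h1, h2⟩ := hk J0 (by omega)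
  have h3 : J' = J := by omega
  refine ⟨J0, by omega, ?_⟩
  rw [inv_smul_eq_iff, h2, h3]

/-- the elements which fix a tail of `f` pointwise from `i` on -/
def Tl (Γ : Type) [Group Γ] [MulAction Γ V] (f : ℕ → V) (i : ℕ) : Subgroup Γ where
  carrier := {n | ∀ j, i ≤ j → n • f j = f j}
  one_mem' := fun _ _ => one_smul _ _
  mul_mem' := by
    intro a b ha hb j hj
    rw [mul_smul, hb j hj, ha j hj]
  inv_mem' := by
    intro a ha j hj
    rw [inv_smul_eq_iff, ha j hj]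

theorem Tl_mono (f : ℕ → V) {i j : ℕ} (h : i ≤ j) : Tl Γ f i ≤ Tl Γ f j :=
  fun _ hn k hk => hn k (h.trans hk)

/-- the elements which fix a tail of `f` -/
def TT (Γ : Type) [Group Γ] [MulAction Γ V] (f : ℕ → V) : Subgroup Γ where
  carrier := {n | ∃ i, n ∈ Tl Γ f i}
  one_mem' := ⟨0, one_mem _⟩
  mul_mem' := by
    rintro a b ⟨i, hi⟩ ⟨j, hj⟩
    exact ⟨max i j, mul_mem (Tl_mono f (le_max_left _ _) hi) (Tl_mono f (le_max_right _ _) hj)⟩
  inv_mem' := by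
    rintro a ⟨i, hi⟩
    exact ⟨i, inv_mem hi⟩

theorem Ds_TT (f : ℕ → V) : ∀ (n : ℕ), ∀ x ∈ Ds (TT Γ f) n, ∃ i, x ∈ Ds (Tl Γ f i) n := by
  intro n
  induction n with
  | zero => exact fun x hx => hx
  | succ n ih =>
    let K : Subgroup Γ :=
      { carrier := {x | ∃ i, x ∈ Ds (Tl Γ f i) (n + 1)}
        one_mem' := ⟨0, one_mem _⟩
        mul_mem' := by
          rintro a b ⟨i, hi⟩ ⟨j, hj⟩
          exact ⟨max i j, mul_mem (Ds_mono (Tl_mono f (le_max_left _ _)) _ hi)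
            (Ds_mono (Tl_mono f (le_max_right _ _)) _ hj)⟩
        inv_mem' := by
          rintro a ⟨i, hi⟩
          exact ⟨i, inv_mem hi⟩ }
    have h1 : ⁅Ds (TT Γ f) n, Ds (TT Γ f) n⁆ ≤ K := by
      rw [Subgroup.commutator_le]
      intro a ha b hb
      obtain ⟨i, hi⟩ := ih a ha
      obtain ⟨j, hj⟩ := ih b hb
      exact ⟨max i j, Subgroup.commutator_mem_commutator
        (Ds_mono (Tl_mono f (le_max_left _ _)) _ hi)
        (Ds_mono (Tl_mono f (le_max_right _ _)) _ hj)⟩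
    exact fun x hx => h1 hx

/-- a group which fixes an end and has solvable stabilizers of bounded derived length is solvable -/
theorem ray_solv {f : ℕ → V} (hf : ∀ n : Γ, ∃ p q : ℕ, ∀ j, n • f (j + p) = f (j + q)) {d : ℕ}
    (hd : ∀ v : V, Ds (MulAction.stabilizer Γ v) d = ⊥) : Ds (⊤ : Subgroup Γ) (1 + d) = ⊥ := by
  have hsh : ∀ n : Γ, ∃ a, Sh f n a := by
    intro n
    obtain ⟨p, q, h⟩ := hf n
    refine ⟨(q : ℤ) - p, p, fun J hJ => ?_⟩
    have h1 := h (J - p)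
    rw [Nat.sub_add_cancel hJ] at h1
    exact ⟨J - p + q, by omega, h1⟩
  have h1 : Ds (⊤ : Subgroup Γ) 1 ≤ TT Γ f := by
    show ⁅(⊤ : Subgroup Γ), (⊤ : Subgroup Γ)⁆ ≤ TT Γ f
    rw [Subgroup.commutator_le]
    intro n _ m _
    obtain ⟨a, ha⟩ := hsh n
    obtain ⟨b, hb⟩ := hsh m
    have h2 := ((ha.mul hb).mul ha.inv).mul hb.inv
    rw [show a + b + -a + -b = 0 by ring] at h2
    obtain ⟨k, hk⟩ := h2
    refine ⟨k, fun J hJ => ?_⟩
    obtain ⟨J', h3, h4⟩ := hk J hJ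
    have h5 : J' = J := by omega
    rw [commutatorElement_def, h4, h5]
  rw [eq_bot_iff]
  refine (Ds_succ_le h1 d).trans ?_
  intro x hx
  obtain ⟨i, hi⟩ := Ds_TT f d x hx
  have h3 : Tl Γ f i ≤ MulAction.stabilizer Γ (f i) := fun n hn => hn i le_rfl
  rw [← hd (f i)]
  exact Ds_mono h3 d hi

theorem line_solv (hadj : ∀ (γ : Γ) (x y : V), T.Adj x y → T.Adj (γ • x) (γ • y))
    (hT : T.IsTree) {f : ℤ → V} (hf : Line T f) (h : ∀ g : Γ, g ∈ Pr Γ f) {d : ℕ}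
    (hd : ∀ v : V, Ds (MulAction.stabilizer Γ v) d = ⊥) : Ds (⊤ : Subgroup Γ) (2 + d) = ⊥ := by
  rw [eq_bot_iff, ← hd (f 0)]
  exact Ds_succ_le (ds_line hadj hT hf h) d

end solv

end Pool.Agent.H6.GB
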