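import Pool.Agent.H6.NT.Main

/-!
# Intrinsic series of the vertex stabilizers
-/

set_option autoImplicit false

namespace Pool.Agent.H6.GB

open SimpleGraph
open scoped commutatorElement
open Pool.Agent.N77.CP (Csd Mx TF SL mem_map_conj)
open Pool.Agent.Y110.FJ (ClosedE)
open Pool.Agent.R684.FP (FbC)
open Pool.Agent.H6.VF (Ds Ds_eq Ds_mono Ds_le)
open Pool.Agent.N508.CS (Sv KCm KSer CFam)

/-- `A i v`, `i ≤ m`, are series of the vertex stabilizers with abelian factors, which are intrinsic: an
isomorphism between subgroups of finite index of two vertex stabilizers maps elements of `A i v` to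
elements of `A i w`. -/
structure Intrinsic (m : ℕ) (N : Type) [Group N] {V : Type} [MulAction N V] (A : ℕ → V → Subgroup N) :
    Prop where
  bot : ∀ v, A 0 v = ⊥
  top : ∀ v, A m v = MulAction.stabilizer N v
  mono : ∀ i < m, ∀ v, A i v ≤ A (i + 1) v
  abel : ∀ i < m, ∀ v, ∀ x ∈ A (i + 1) v, ∀ y ∈ A (i + 1) v, x * y * x⁻¹ * y⁻¹ ∈ A i v
  intr : ∀ i ≤ m, ∀ (v w : V) (P Q : Subgroup N), P ≤ MulAction.stabilizer N v →
    Q ≤ MulAction.stabilizer N w → P.relIndex (MulAction.stabilizer N v) ≠ 0 →
    Q.relIndex (MulAction.stabilizer N w) ≠ 0 → ∀ (φ : P ≃* Q) (x : P), (x : N) ∈ A i v →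
    (φ x : N) ∈ A i w

section

variable {m : ℕ} {N : Type} [Group N] {V : Type} [MulAction N V] {A : ℕ → V → Subgroup N}

theorem Intrinsic.comm (h : Intrinsic m N A) {i : ℕ} (hi : i < m) (v : V) :
    ⁅A (i + 1) v, A (i + 1) v⁆ ≤ A i v := by
  rw [Subgroup.commutator_le]
  intro x hx y hy
  rw [commutatorElement_def]
  exact h.abel i hi v x hx y hy

theorem Intrinsic.le (h : Intrinsic m N A) (v : V) : ∀ j ≤ m, A (m - j) v ≤ MulAction.stabilizer N v := by
  intro j
  induction j with
  | zero =>
    intro _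
    rw [Nat.sub_zero, h.top]
  | succ j ih =>
    intro hj
    refine (h.mono (m - (j + 1)) (by omega) v).trans ?_
    rw [show m - (j + 1) + 1 = m - j by omega]
    exact ih (by omega)

theorem Intrinsic.le' (h : Intrinsic m N A) (v : V) {i : ℕ} (hi : i ≤ m) :
    A i v ≤ MulAction.stabilizer N v := by
  have h1 := h.le v (m - i) (by omega)
  rwa [show m - (m - i) = i by omega] at h1

theorem Intrinsic.ds (h : Intrinsic m N A) (v : V) : Ds (MulAction.stabilizer N v) m = ⊥ := by
  have key : ∀ j ≤ m, Ds (MulAction.stabilizer N v) j ≤ A (m - j) v := by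
    intro j
    induction j with
    | zero =>
      intro _
      rw [Nat.sub_zero, h.top]
      exact le_rfl
    | succ j ih =>
      intro hj
      have h1 := ih (by omega)
      rw [show m - j = m - (j + 1) + 1 by omega] at h1
      exact (Subgroup.commutator_mono h1 h1).trans (h.comm (by omega) v)
  have h1 := key m le_rfl
  rw [Nat.sub_self, h.bot] at h1
  exact eq_bot_iff.2 h1

theorem Intrinsic.cfam (h : Intrinsic m N A) (T : SimpleGraph V)
    (hcom : ∀ u v : V, T.Adj u v →
      (MulAction.stabilizer N u).relIndex (MulAction.stabilizer N v) ≠ 0)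
    {i : ℕ} (hi : i ≤ m) : CFam T (A i) := by
  refine ⟨fun v a ha => h.le' v hi ha, fun g v a ha => ?_, fun u v huv a ha hau => ?_⟩
  · have e : (MulAction.stabilizer N v).map (MulAut.conj g).toMonoidHom =
        MulAction.stabilizer N (g • v) :=
      (MulAction.stabilizer_smul_eq_stabilizer_map_conj g v).symm
    exact h.intr i hi v (g • v) (MulAction.stabilizer N v)
      ((MulAction.stabilizer N v).map (MulAut.conj g).toMonoidHom) le_rfl e.le
      (by rw [Subgroup.relIndex_self]; exact one_ne_zero)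
      (by rw [e, Subgroup.relIndex_self]; exact one_ne_zero)
      ((MulAction.stabilizer N v).equivMapOfInjective _ (MulAut.conj g).injective)
      ⟨a, h.le' v hi ha⟩ ha
  · exact h.intr i hi v u (MulAction.stabilizer N v ⊓ MulAction.stabilizer N u)
      (MulAction.stabilizer N v ⊓ MulAction.stabilizer N u) inf_le_left inf_le_right
      (by rw [inf_comm, Subgroup.inf_relIndex_right]; exact hcom u v huv)
      (by rw [Subgroup.inf_relIndex_right]; exact hcom v u huv.symm)
      (MulEquiv.refl _) ⟨a, h.le' v hi ha, hau⟩ ha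

end

section main

variable {C : ∀ (G : Type) [Group G], Prop} {G : Type} [Group G]

theorem relIndex_conj_ne (N : Subgroup G) [hN : N.Normal] {V : Type} [MulAction ↥N V]
    (T : SimpleGraph V) (hT : T.IsTree)
    (hcom : ∀ u v : V, T.Adj u v →
      (MulAction.stabilizer ↥N u).relIndex (MulAction.stabilizer ↥N v) ≠ 0)
    (h : ∀ (g : G) (v : V), ∃ w : V,
      (MulAction.stabilizer ↥N v).map (MulAut.conjNormal (H := N) g).toMonoidHom ≤
        MulAction.stabilizer ↥N w) (g : G) (v w : V) :
    ((MulAction.stabilizer ↥N v).map (MulAut.conjNormal (H := N) g).toMonoidHom).relIndex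
      (MulAction.stabilizer ↥N w) ≠ 0 := by
  have hall : ∀ u v : V,
      (MulAction.stabilizer ↥N u).relIndex (MulAction.stabilizer ↥N v) ≠ 0 :=
    fun u v => Pool.Agent.N24.CM.commensurable hT.1 (fun x => MulAction.stabilizer ↥N x) hcom u v
  refine Subgroup.relIndex_ne_zero_trans ?_ (hall v w)
  obtain ⟨u, hu⟩ := h g⁻¹ v
  have h1 : (MulAction.stabilizer ↥N v).relIndex
      ((MulAction.stabilizer ↥N v).map (MulAut.conjNormal (H := N) g⁻¹).toMonoidHom) ≠ 0 := by
    intro h0
    exact hall v u (Subgroup.relIndex_eq_zero_of_le_right hu h0)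
  rw [← Subgroup.relIndex_map_map_of_injective _ _
    (f := (MulAut.conjNormal (H := N) g).toMonoidHom) (MulAut.conjNormal (H := N) g).injective,
    Subgroup.map_map] at h1
  have h2 : ((MulAut.conjNormal (H := N) g).toMonoidHom.comp
      (MulAut.conjNormal (H := N) g⁻¹).toMonoidHom) = MonoidHom.id ↥N := by
    ext x
    show ((MulAut.conjNormal (H := N) g (MulAut.conjNormal (H := N) g⁻¹ x) : ↥N) : G) = x
    rw [MulAut.conjNormal_apply, MulAut.conjNormal_apply]
    group
  rw [h2, Subgroup.map_id] at h1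
  exact h1

/-- **intrinsic series with abelian factors** -/
theorem intr_main (hC : ClosedE C) (hM : ∀ (G : Type) [Group G], derivedSeries G 2 = ⊥ → C G)
    (hF : FbC C) (N : Subgroup G) [N.Normal] (hQ : C (G ⧸ N))
    {V : Type} [MulAction ↥N V] (T : SimpleGraph V) (hT : T.IsTree)
    (hadj : ∀ (g : ↥N) (u v : V), T.Adj u v → T.Adj (g • u) (g • v))
    (hinv : ∀ (g : ↥N) (u v : V), T.Adj u v → ¬ (g • u = v ∧ g • v = u))
    (hcom : ∀ u v : V, T.Adj u v →
      (MulAction.stabilizer ↥N u).relIndex (MulAction.stabilizer ↥N v) ≠ 0)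
    (m : ℕ) (A : ℕ → V → Subgroup ↥N) (hA : Intrinsic m ↥N A) : C G := by
  rcases rigid N T hT hadj hinv hcom m hA.ds with h | h
  · exact solv_main hC hM hF N hQ _ h
  · refine Pool.Agent.N508.CS.t_ktr Pool.Agent.N508.CS.t_tfr Pool.Agent.N508.CS.t_afr
      Pool.Agent.N508.CS.t_pst C hC hM hF G V N T hT hadj hinv m A
      ⟨fun i hi => hA.cfam T hcom hi, hA.bot, hA.top, hA.mono, fun i hi v => hA.comm hi v, ?_⟩ hQ
    intro i hi g v a ha
    obtain ⟨w, hw⟩ := h g v
    refine ⟨w, MulAut.conjNormal (H := N) g a, ?_, by simp [MulAut.conjNormal_apply]⟩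
    exact hA.intr i hi v w (MulAction.stabilizer ↥N v)
      ((MulAction.stabilizer ↥N v).map (MulAut.conjNormal (H := N) g).toMonoidHom) le_rfl hw
      (by rw [Subgroup.relIndex_self]; exact one_ne_zero)
      (relIndex_conj_ne N T hT hcom h g v w)
      ((MulAction.stabilizer ↥N v).equivMapOfInjective _ (MulAut.conjNormal (H := N) g).injective)
      ⟨a, hA.le' v hi ha⟩ ha

end main

end Pool.Agent.H6.GB
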