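import Pool.Agent.H6.NT.Solv
import Pool.Graph.R_pool_sql_team_seeded_63374d34.N508.CS.Ktr
import Pool.Graph.R_pool_sql_team_seeded_63374d34.N508.CS.Tfr
import Pool.Graph.R_pool_sql_team_seeded_63374d34.N508.CS.Afr
import Pool.Graph.R_pool_sql_team_seeded_63374d34.N508.CS.Pst
import Pool.Graph.R_pool_sql_team_seeded_63374d34.N508.CS.Ell
import Pool.Graph.R_pool_sql_team_seeded_63374d34.N508.CS.Ln
import Pool.Graph.R_pool_sql_team_seeded_63374d34.N508.CS.Knl
import Pool.Graph.R_pool_sql_team_seeded_63374d34.N508.CS.Kvc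
import Pool.Graph.R_pool_sql_team_seeded_63374d34.N508.CS.Kab
import Pool.Graph.R_pool_sql_team_seeded_63374d34.N508.CS.Rho

/-!
# Normal subgroups which act on trees with commensurable locally polycyclic stabilizers
-/

set_option autoImplicit false

namespace Pool.Agent.H6.GB

open SimpleGraph
open scoped commutatorElement
open Pool.Agent.N77.CP (Csd Mx TF SL mem_map_conj)
open Pool.Agent.Y110.FJ (ClosedE)
open Pool.Agent.R684.FP (FbC)
open Pool.Agent.H6.VF (Ds Ds_eq Ds_mono Ds_le)
open Pool.Agent.N508.CS (Sv KCm KSer CFam)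

section rigid

variable {G : Type} [Group G]

theorem conj_csd (N : Subgroup G) [hN : N.Normal] {P : Subgroup ↥N} (hP : Csd P) (g : G) :
    Csd (P.map (MulAut.conjNormal (H := N) g).toMonoidHom) := by
  let α : ↥N ≃* ↥N := MulAut.conjNormal (H := N) g
  intro n
  have h2 := hP (α.symm n)
  have h3 : (P.map α.toMonoidHom).map (MulAut.conj n).toMonoidHom =
      (P.map (MulAut.conj (α.symm n)).toMonoidHom).map α.toMonoidHom := by
    rw [Subgroup.map_map, Subgroup.map_map]
    congr 1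
    ext x
    show ((n * α x * n⁻¹ : ↥N) : G) = ((α (α.symm n * x * (α.symm n)⁻¹) : ↥N) : G)
    rw [map_mul, map_mul, map_inv, MulEquiv.apply_symm_apply]
  show ((P.map α.toMonoidHom).map (MulAut.conj n).toMonoidHom).relIndex (P.map α.toMonoidHom) ≠ 0
  rw [h3, Subgroup.relIndex_map_map_of_injective _ _ (f := α.toMonoidHom) α.injective]
  exact h2

variable (N : Subgroup G) [hN : N.Normal] {V : Type} [MulAction ↥N V]

/-- **rigidity**: the normal subgroup `N` is solvable, or the group permutes the elliptic subgroups -/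
theorem rigid (T : SimpleGraph V) (hT : T.IsTree)
    (hadj : ∀ (g : ↥N) (u v : V), T.Adj u v → T.Adj (g • u) (g • v))
    (hinv : ∀ (g : ↥N) (u v : V), T.Adj u v → ¬ (g • u = v ∧ g • v = u))
    (hcom : ∀ u v : V, T.Adj u v →
      (MulAction.stabilizer ↥N u).relIndex (MulAction.stabilizer ↥N v) ≠ 0)
    (d : ℕ) (hd : ∀ v : V, Ds (MulAction.stabilizer ↥N v) d = ⊥) :
    Ds (⊤ : Subgroup ↥N) (2 + d) = ⊥ ∨ ∀ (g : G) (v : V), ∃ w : V,
      (MulAction.stabilizer ↥N v).map (MulAut.conjNormal (H := N) g).toMonoidHom ≤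
        MulAction.stabilizer ↥N w := by
  by_cases h : ∀ (g : G) (v : V), ∃ w : V,
      (MulAction.stabilizer ↥N v).map (MulAut.conjNormal (H := N) g).toMonoidHom ≤
        MulAction.stabilizer ↥N w
  · exact Or.inr h
  left
  push Not at h
  obtain ⟨g, v, hgv⟩ := h
  have h1 : Csd (MulAction.stabilizer ↥N v) := by
    have h1 := Pool.Agent.N77.CP.csd_stab T hT (⊤ : Subgroup ↥N) (by
      intro x y hxy
      rw [top_inf_eq, top_inf_eq]
      exact hcom x y hxy) v
    rwa [top_inf_eq] at h1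
  have hB : Ds ((MulAction.stabilizer ↥N v).map (MulAut.conjNormal (H := N) g).toMonoidHom) d =
      ⊥ := by
    rw [← Ds_map, hd v, Subgroup.map_bot]
  rcases solv_dich hadj hT hinv (conj_csd N h1 g) hB with
    ⟨w, hw⟩ | ⟨f, hf, hfp⟩ | ⟨f, hf, hfr⟩
  · exact absurd (show _ ≤ MulAction.stabilizer ↥N w from hw) (hgv w)
  · exact line_solv hadj hT hf hfp hd
  · have h2 := ray_solv hfr hd
    rw [eq_bot_iff, ← h2]
    refine (le_of_eq ?_).trans (Subgroup.commutator_le.2 ?_ :
      ⁅Ds (⊤ : Subgroup ↥N) (1 + d), Ds (⊤ : Subgroup ↥N) (1 + d)⁆ ≤ _)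
    · rw [show 2 + d = (1 + d) + 1 by ring]
      rfl
    · intro a ha b hb
      exact mul_mem (mul_mem (mul_mem ha hb) (inv_mem ha)) (inv_mem hb)

theorem csd_of_ell (T : SimpleGraph V) (hT : T.IsTree)
    (hcom : ∀ u v : V, T.Adj u v →
      (MulAction.stabilizer ↥N u).relIndex (MulAction.stabilizer ↥N v) ≠ 0)
    (h : ∀ (g : G) (v : V), ∃ w : V,
      (MulAction.stabilizer ↥N v).map (MulAut.conjNormal (H := N) g).toMonoidHom ≤
        MulAction.stabilizer ↥N w) (g : G) (v : V) :
    ((Sv N v).map (MulAut.conj g).toMonoidHom).relIndex (Sv N v) ≠ 0 := by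
  have hall : ∀ u v : V,
      (MulAction.stabilizer ↥N u).relIndex (MulAction.stabilizer ↥N v) ≠ 0 :=
    fun u v => Pool.Agent.N24.CM.commensurable hT.1 (fun x => MulAction.stabilizer ↥N x) hcom u v
  obtain ⟨w, hw⟩ := h g⁻¹ v
  have h1 : (MulAction.stabilizer ↥N v).relIndex
      ((MulAction.stabilizer ↥N v).map (MulAut.conjNormal (H := N) g⁻¹).toMonoidHom) ≠ 0 := by
    intro h0
    exact hall v w (Subgroup.relIndex_eq_zero_of_le_right hw h0)
  have h2 : ((MulAction.stabilizer ↥N v).map (MulAut.conjNormal (H := N) g⁻¹).toMonoidHom).map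
      N.subtype = ((MulAction.stabilizer ↥N v).map N.subtype).map
        (MulAut.conj g⁻¹).toMonoidHom := by
    rw [Subgroup.map_map, Subgroup.map_map]
    congr 1
  rw [← Subgroup.relIndex_map_map_of_injective _ _ N.subtype_injective, h2,
    ← Pool.Agent.N77.CP.relIndex_conj g, Pool.Agent.N77.CP.map_conj_conj, mul_inv_cancel,
    Pool.Agent.N77.CP.map_conj_one] at h1
  exact h1

end rigid

section nil

theorem lcs_of_ucs {Γ : Type} [Group Γ] {P : Subgroup Γ} {c : ℕ}
    (h : Subgroup.upperCentralSeries ↥P c = ⊤) : P.lowerCentralSeries c = ⊥ := by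
  have h1 : (⊤ : Subgroup ↥P).lowerCentralSeries c = ⊥ :=
    Subgroup.lowerCentralSeries_eq_bot_iff_upperCentralSeries_eq_top.2 h
  rw [← Subgroup.top_subtype_lowerCentralSeries, h1, Subgroup.map_bot]

theorem Ds_of_nil {Γ : Type} [Group Γ] {P : Subgroup Γ} {c : ℕ}
    (h : P.lowerCentralSeries c = ⊥) : Ds P c = ⊥ := by
  have key : ∀ n, Ds P n ≤ P.lowerCentralSeries n := by
    intro n
    induction n with
    | zero => exact le_rfl
    | succ n ih =>
      rw [Subgroup.lowerCentralSeries_succ]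
      exact Subgroup.commutator_mono ih (Ds_le P n)
  rw [eq_bot_iff, ← h]
  exact key c

end nil

section main

variable {C : ∀ (G : Type) [Group G], Prop} {G : Type} [Group G]

theorem met_of_der (hM : ∀ (G : Type) [Group G], derivedSeries G 2 = ⊥ → C G) :
    Pool.Agent.T2H35.FJT.Met C := by
  intro S _ h
  refine hM S ?_
  rw [derivedSeries_succ, derivedSeries_one, Subgroup.commutator_eq_bot_iff_le_centralizer]
  intro a ha
  rw [Subgroup.mem_centralizer_iff]
  intro b hb
  exact h b hb a ha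

theorem solv_main (hC : ClosedE C) (hM : ∀ (G : Type) [Group G], derivedSeries G 2 = ⊥ → C G)
    (hF : FbC C) (N : Subgroup G) [N.Normal] (hQ : C (G ⧸ N)) (k : ℕ)
    (h : Ds (⊤ : Subgroup ↥N) k = ⊥) : C G := by
  refine Pool.Agent.H6.VF.main hC (met_of_der hM) hF N hQ N le_rfl ?_ k ?_
  · rw [Subgroup.relIndex_self]
    exact one_ne_zero
  · have h2 : Ds N k = (Ds (⊤ : Subgroup ↥N) k).map N.subtype := by
      rw [Ds_map, ← MonoidHom.range_eq_map, Subgroup.range_subtype]
    rw [h2, h, Subgroup.map_bot]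
    exact IsFreeGroup.ofMulEquiv (MulEquiv.ofUnique (M := FreeGroup Empty))

/-- torsion-free nilpotent stabilizers of bounded class -/
theorem nil_main (hC : ClosedE C) (hM : ∀ (G : Type) [Group G], derivedSeries G 2 = ⊥ → C G)
    (hF : FbC C) (N : Subgroup G) [N.Normal] (hQ : C (G ⧸ N))
    {V : Type} [MulAction ↥N V] (T : SimpleGraph V) (hT : T.IsTree)
    (hadj : ∀ (g : ↥N) (u v : V), T.Adj u v → T.Adj (g • u) (g • v))
    (hinv : ∀ (g : ↥N) (u v : V), T.Adj u v → ¬ (g • u = v ∧ g • v = u))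
    (hcom : ∀ u v : V, T.Adj u v →
      (MulAction.stabilizer ↥N u).relIndex (MulAction.stabilizer ↥N v) ≠ 0)
    (htf : ∀ (v : V) (x : ↥N), x • v = v → IsOfFinOrder x → x = 1)
    (c : ℕ) (hc : ∀ v : V, Subgroup.upperCentralSeries ↥(MulAction.stabilizer ↥N v) c = ⊤) :
    C G := by
  have hall : ∀ u v : V,
      (MulAction.stabilizer ↥N u).relIndex (MulAction.stabilizer ↥N v) ≠ 0 :=
    fun u v => Pool.Agent.N24.CM.commensurable hT.1 (fun x => MulAction.stabilizer ↥N x) hcom u v
  rcases rigid N T hT hadj hinv hcom c (fun v => Ds_of_nil (lcs_of_ucs (hc v))) with h | h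
  · exact solv_main hC hM hF N hQ _ h
  · refine Pool.Agent.N508.CS.t_knl (Pool.Agent.N508.CS.t_ktr Pool.Agent.N508.CS.t_tfr
      Pool.Agent.N508.CS.t_afr Pool.Agent.N508.CS.t_pst) Pool.Agent.N508.CS.t_ln
      Pool.Agent.N508.CS.t_ell C hC hM hF G V N T hT hadj hinv ⟨htf, ?_, ?_⟩ c hc hQ
    · intro u v _
      show ((MulAction.stabilizer ↥N u).map N.subtype).relIndex
        ((MulAction.stabilizer ↥N v).map N.subtype) ≠ 0
      rw [Subgroup.relIndex_map_map_of_injective _ _ N.subtype_injective]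
      exact hall u v
    · exact csd_of_ell N T hT hcom h

/-- torsion-free solvable stabilizers with a condition on the groups which commensurate them -/
theorem ec_main (hC : ClosedE C) (hM : ∀ (G : Type) [Group G], derivedSeries G 2 = ⊥ → C G)
    (hF : FbC C) (N : Subgroup G) [N.Normal] (hQ : C (G ⧸ N))
    {V : Type} [MulAction ↥N V] (T : SimpleGraph V) (hT : T.IsTree)
    (hadj : ∀ (g : ↥N) (u v : V), T.Adj u v → T.Adj (g • u) (g • v))
    (hinv : ∀ (g : ↥N) (u v : V), T.Adj u v → ¬ (g • u = v ∧ g • v = u))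
    (hcom : ∀ u v : V, T.Adj u v →
      (MulAction.stabilizer ↥N u).relIndex (MulAction.stabilizer ↥N v) ≠ 0)
    (htf : ∀ (v : V) (x : ↥N), x • v = v → IsOfFinOrder x → x = 1)
    (d : ℕ) (hd : ∀ v : V, Ds (MulAction.stabilizer ↥N v) d = ⊥)
    (hE : ∀ v : V, Pool.Agent.N508.CS.EC C (Sv N v)) : C G := by
  rcases rigid N T hT hadj hinv hcom d hd with h | h
  · exact solv_main hC hM hF N hQ _ h
  · refine Pool.Agent.N508.CS.t_kvc (Pool.Agent.N508.CS.t_kab (Pool.Agent.N508.CS.t_ktr
      Pool.Agent.N508.CS.t_tfr Pool.Agent.N508.CS.t_afr Pool.Agent.N508.CS.t_pst))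
      Pool.Agent.N508.CS.t_rho Pool.Agent.N508.CS.t_ell C hC hM hF G V N T hT hadj hinv
      ⟨htf, ?_, csd_of_ell N T hT hcom h⟩ hE hQ
    intro u v huv
    show ((MulAction.stabilizer ↥N u).map N.subtype).relIndex
      ((MulAction.stabilizer ↥N v).map N.subtype) ≠ 0
    rw [Subgroup.relIndex_map_map_of_injective _ _ N.subtype_injective]
    exact hcom u v huv

/-- abelian stabilizers -/
theorem ab_main (hC : ClosedE C) (hM : ∀ (G : Type) [Group G], derivedSeries G 2 = ⊥ → C G)
    (hF : FbC C) (N : Subgroup G) [N.Normal] (hQ : C (G ⧸ N))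
    {V : Type} [MulAction ↥N V] (T : SimpleGraph V) (hT : T.IsTree)
    (hadj : ∀ (g : ↥N) (u v : V), T.Adj u v → T.Adj (g • u) (g • v))
    (hinv : ∀ (g : ↥N) (u v : V), T.Adj u v → ¬ (g • u = v ∧ g • v = u))
    (hcom : ∀ u v : V, T.Adj u v →
      (MulAction.stabilizer ↥N u).relIndex (MulAction.stabilizer ↥N v) ≠ 0)
    (hab : ∀ (v : V) (x y : ↥N), x • v = v → y • v = v → x * y = y * x) :
    C G := by
  have hcomm : ∀ v : V, ⁅MulAction.stabilizer ↥N v, MulAction.stabilizer ↥N v⁆ = ⊥ := by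
    intro v
    rw [Subgroup.commutator_eq_bot_iff_le_centralizer]
    intro a ha
    rw [Subgroup.mem_centralizer_iff]
    intro b hb
    exact hab v b a hb ha
  have hl : ∀ v : V, (MulAction.stabilizer ↥N v).lowerCentralSeries 1 = ⊥ := hcomm
  rcases rigid N T hT hadj hinv hcom 1 (fun v => Ds_of_nil (hl v)) with h | h
  · exact solv_main hC hM hF N hQ _ h
  · let A : ℕ → V → Subgroup ↥N := fun i v => if i = 0 then ⊥ else MulAction.stabilizer ↥N v
    have hA0 : ∀ v, A 0 v = ⊥ := fun v => rfl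
    have hA1 : ∀ v, A 1 v = MulAction.stabilizer ↥N v := fun v => rfl
    refine Pool.Agent.N508.CS.t_ktr Pool.Agent.N508.CS.t_tfr Pool.Agent.N508.CS.t_afr
      Pool.Agent.N508.CS.t_pst C hC hM hF G V N T hT hadj hinv 1 A
      ⟨?_, hA0, hA1, ?_, ?_, ?_⟩ hQ
    · intro i hi
      interval_cases i
      · refine ⟨fun v a ha => ?_, fun g v a ha => ?_, fun u v _ a ha _ => ?_⟩
        · rw [hA0, Subgroup.mem_bot] at ha
          rw [ha, one_smul]
        · rw [hA0, Subgroup.mem_bot] at ha ⊢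
          rw [ha]
          simp
        · rw [hA0, Subgroup.mem_bot] at ha ⊢
          exact ha
      · refine ⟨fun v a ha => ha, fun g v a ha => ?_, fun u v _ a _ hau => hau⟩
        have ha' : a • v = v := ha
        show (g * a * g⁻¹) • g • v = g • v
        rw [smul_smul, inv_mul_cancel_right, mul_smul, ha']
    · intro i hi v
      interval_cases i
      exact bot_le
    · intro i hi v
      interval_cases i
      exact (hcomm v).le
    · intro i hi g v a ha
      interval_cases i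
      · rw [hA0, Subgroup.mem_bot] at ha
        exact ⟨v, 1, one_mem _, by rw [ha]; simp⟩
      · obtain ⟨w, hw⟩ := h g v
        exact ⟨w, MulAut.conjNormal (H := N) g a, hw ⟨a, ha, rfl⟩, by simp [MulAut.conjNormal_apply]⟩

end main

end Pool.Agent.H6.GB
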