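import Pool.Agent.H6.NT.Dich

/-!
# Commensurated solvable subgroups of groups which act on trees
-/

set_option autoImplicit false

namespace Pool.Agent.H6.GB

open SimpleGraph
open scoped commutatorElement
open Pool.Agent.N77.CP (Csd Mx SL mem_map_conj)
open Pool.Agent.H6.VF (Ds Ds_eq Ds_mono Ds_le)

section action

variable {V : Type} {T : SimpleGraph V} {Γ : Type} [Group Γ] [MulAction Γ V]

/-- all finite subsets of `K` fix a vertex -/
def LEll (V : Type) {Γ : Type} [Group Γ] [MulAction Γ V] (K : Subgroup Γ) : Prop :=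
  ∀ E : Finset Γ, (E : Set Γ) ⊆ K → ∃ v : V, ∀ e ∈ E, e • v = v

theorem step_ab (hadj : ∀ (γ : Γ) (x y : V), T.Adj x y → T.Adj (γ • x) (γ • y))
    (hT : T.IsTree) (hinv : ∀ (g : Γ) (u v : V), T.Adj u v → ¬ (g • u = v ∧ g • v = u))
    {H K : Subgroup Γ} (hHK : H ≤ K) (hc : ⁅K, K⁆ ≤ H) (hH : Q Γ T H) :
    Q Γ T K ∨ LEll V K := by
  classical
  have hnorm : ∀ (L : Subgroup Γ), L ≤ K → H ≤ L → ∀ k ∈ K, ∀ h ∈ L, k * h * k⁻¹ ∈ L := by
    intro L hLK hHL k hk h hh
    have h4 : k * h * k⁻¹ = ⁅k, h⁆ * h := by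
      rw [commutatorElement_def]
      group
    rw [h4]
    exact mul_mem (hHL (hc (Subgroup.commutator_mem_commutator hk (hLK hh)))) hh
  rcases hH with ⟨v, hv⟩ | ⟨f, t, c, hf, hcH, hcf, hHf⟩
  · by_cases hyp : ∃ b ∈ K, ∀ y : V, b • y ≠ y
    · left
      right
      obtain ⟨b, hbK, hby⟩ := hyp
      obtain ⟨x, l, hx⟩ := lin_of_nofix hadj hT hinv hby
      obtain ⟨f, hf, hbf⟩ := line_of_lin hadj hT hx
      have h1 : ∀ h ∈ H, ∀ i, h • f i = f i := by
        intro h hh i
        refine (hbf.lin hf i).fixed hadj hT (y := v) ?_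
        intro n
        have h2 := hv _ (zpow_conj_mem (hnorm H hHK le_rfl b hbK) (by
          intro h hh
          have := hnorm H hHK le_rfl b⁻¹ (inv_mem hbK) h hh
          rwa [inv_inv] at this) n h hh)
        rw [mul_smul, mul_smul, inv_smul_eq_iff] at h2
        exact h2
      refine ⟨f, l, b, hf, hbK, hbf, ?_⟩
      have key : ∀ k ∈ K, ∀ i, ∃ j, k • f i = f j := by
        intro k hk
        have h2 := hbf.conj k
        have h3 : Tr (k * b * k⁻¹) f l := by
          refine ⟨hbf.1, fun i => ?_⟩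
          have h4 : k * b * k⁻¹ = ⁅k, b⁆ * b := by
            rw [commutatorElement_def]
            group
          rw [h4, mul_smul, hbf.2]
          exact h1 _ (hc (Subgroup.commutator_mem_commutator hk hbK)) _
        exact Tr.unique hadj hT hf (hf.smul hadj hT k) h3 h2
      exact fun k hk => ⟨key k hk, key k⁻¹ (inv_mem hk)⟩
    · right
      push Not at hyp
      have key : ∀ E : Finset Γ, (E : Set Γ) ⊆ K →
          ∃ v : V, ∀ x ∈ H ⊔ Subgroup.closure (E : Set Γ), x • v = v := by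
        intro E
        induction E using Finset.induction_on with
        | empty =>
          intro _
          exact ⟨v, by simpa using hv⟩
        | insert e E _ ih =>
          intro hE
          rw [Finset.coe_insert, Set.insert_subset_iff] at hE
          obtain ⟨w, hw⟩ := ih hE.2
          obtain ⟨y, hy⟩ := hyp e hE.1
          have hle : H ⊔ Subgroup.closure (E : Set Γ) ≤ K :=
            sup_le hHK ((Subgroup.closure_le K).2 hE.2)
          obtain ⟨u, hu, heu⟩ := common hadj hT (H := H ⊔ Subgroup.closure (E : Set Γ)) (b := e)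
            (by
              intro h hh
              have := hnorm _ hle le_sup_left e⁻¹ (inv_mem hE.1) h hh
              rwa [inv_inv] at this) hw hy
          refine ⟨u, ?_⟩
          have h1 : H ⊔ Subgroup.closure ((insert e E : Finset Γ) : Set Γ) ≤
              MulAction.stabilizer Γ u := by
            refine sup_le (le_sup_left.trans hu) ?_
            rw [Subgroup.closure_le, Finset.coe_insert, Set.insert_subset_iff]
            exact ⟨heu, fun x hx => hu x (Subgroup.mem_sup_right (Subgroup.subset_closure hx))⟩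
          exact fun x hx => h1 hx
      intro E hE
      obtain ⟨w, hw⟩ := key E hE
      exact ⟨w, fun e he => hw e (Subgroup.mem_sup_right (Subgroup.subset_closure he))⟩
  · left
    right
    refine ⟨f, t, c, hf, hHK hcH, hcf, ?_⟩
    have key : ∀ k ∈ K, ∀ i, ∃ j, k • f i = f j := by
      intro k hk
      have h1 := hcf.conj k
      have h2 := hf.smul hadj hT k
      have h3 := hHf (hnorm H hHK le_rfl k hk c hcH)
      obtain ⟨t', h4⟩ := tr_of_pres hadj hT hinv hf h3.1 (h1.nofix hadj hT h2)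
      exact Tr.unique hadj hT hf h2 h4 h1
    exact fun k hk => ⟨key k hk, key k⁻¹ (inv_mem hk)⟩

/-- the end of a locally elliptic group -/
theorem ray_of_LEll (hadj : ∀ (γ : Γ) (x y : V), T.Adj x y → T.Adj (γ • x) (γ • y))
    (hT : T.IsTree) {H : Subgroup Γ} (hloc : LEll V H) (hno : ∀ v : V, ∃ b ∈ H, b • v ≠ v) :
    ∃ f : ℕ → V, Ray T f ∧ ∀ h ∈ H, ∃ k, ∀ i, k ≤ i → h • f i = f i := by
  classical
  have hne : Nonempty {E : Finset Γ // (E : Set Γ) ⊆ H} := ⟨⟨∅, by simp⟩⟩
  obtain ⟨f, hf, hfB⟩ := exists_ray hT (A := {E : Finset Γ // (E : Set Γ) ⊆ H})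
    (fun E => {v : V | ∀ e ∈ (E.1 : Set Γ), e • v = v}) (fun E => cvx_fix hadj hT _)
    (fun E => by
      obtain ⟨v, hv⟩ := hloc E.1 E.2
      exact ⟨v, fun e he => hv e he⟩)
    (fun E F => ⟨⟨E.1 ∪ F.1, by
      rw [Finset.coe_union]
      exact Set.union_subset E.2 F.2⟩, fun v hv e he => hv e (by
        rw [Finset.coe_union]
        exact Or.inl he), fun v hv e he => hv e (by
        rw [Finset.coe_union]
        exact Or.inr he)⟩)
    (fun v => by
      obtain ⟨b, hb, hbv⟩ := hno v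
      refine ⟨⟨{b}, by simpa using hb⟩, fun h => hbv (h b ?_)⟩
      simp)
  refine ⟨f, hf, fun b hb => ?_⟩
  obtain ⟨k, hk⟩ := hfB ⟨{b}, by simpa using hb⟩
  exact ⟨k, fun i hi => hk i hi b (by simp)⟩

/-- an element which normalizes the locally elliptic group fixes its end -/
theorem end_of_norm (hadj : ∀ (γ : Γ) (x y : V), T.Adj x y → T.Adj (γ • x) (γ • y))
    (hT : T.IsTree) {H : Subgroup Γ} (hno : ∀ v : V, ∃ b ∈ H, b • v ≠ v)
    {f : ℕ → V} (hf : Ray T f) (hfH : ∀ h ∈ H, ∃ k, ∀ i, k ≤ i → h • f i = f i)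
    {b : Γ} (hb : ∀ h ∈ H, b⁻¹ * h * b ∈ H) :
    ∃ p q : ℕ, ∀ j, b • f (j + p) = f (j + q) := by
  rcases two_rays hT hf (hf.smul hadj hT b) with ⟨w, hw⟩ | h
  · exfalso
    obtain ⟨h, hh, hhw⟩ := hno w
    apply hhw
    obtain ⟨k1, hk1⟩ := hfH h hh
    obtain ⟨k2, hk2⟩ := hfH _ (hb h hh)
    obtain ⟨i, j, hi, hj, hij⟩ := hw (max k1 k2)
    refine fix_btw hadj hT (hk1 i ((le_max_left _ _).trans hi)) ?_ hij
    have h3 := hk2 j ((le_max_right _ _).trans hj)
    rw [mul_smul, mul_smul, inv_smul_eq_iff] at h3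
    exact h3
  · exact h

/-- an elliptic element which fixes an end fixes a tail of every ray to this end -/
theorem ell_shift (hadj : ∀ (γ : Γ) (x y : V), T.Adj x y → T.Adj (γ • x) (γ • y))
    (hT : T.IsTree) {f : ℕ → V} (hf : Ray T f) {b : Γ} {v : V} (hv : b • v = v)
    (h : ∃ p q : ℕ, ∀ j, b • f (j + p) = f (j + q)) : ∃ k, ∀ i, k ≤ i → b • f i = f i := by
  obtain ⟨p, q, h⟩ := h
  obtain ⟨β, k, hβ⟩ := hf.horo hT v
  have h1 := hβ (k + p) (by omega)
  have h2 := hβ (k + q) (by omega)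
  have h3 := ds hadj hT b (f (k + p)) v
  rw [h k, hv] at h3
  have h4 : p = q := by
    rw [← h3] at h1
    push_cast at h1 h2
    omega
  subst h4
  refine ⟨p, fun i hi => ?_⟩
  have h5 := h (i - p)
  rwa [Nat.sub_add_cancel hi] at h5

/-- **the trichotomy** for a commensurated solvable subgroup -/
theorem solv_dich (hadj : ∀ (γ : Γ) (x y : V), T.Adj x y → T.Adj (γ • x) (γ • y))
    (hT : T.IsTree) (hinv : ∀ (g : Γ) (u v : V), T.Adj u v → ¬ (g • u = v ∧ g • v = u))
    {B : Subgroup Γ} (hcsd : Csd B) {n : ℕ} (hn : Ds B n = ⊥) :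
    (∃ v : V, ∀ b ∈ B, b • v = v) ∨ (∃ f : ℤ → V, Line T f ∧ ∀ g : Γ, g ∈ Pr Γ f) ∨
      ∃ f : ℕ → V, Ray T f ∧ ∀ n : Γ, ∃ p q : ℕ, ∀ j, n • f (j + p) = f (j + q) := by
  classical
  have key : ∀ i ≤ n, Q Γ T (Ds B (n - i)) ∨
      ∃ m, LEll V (Ds B m) ∧ ∀ v : V, ∃ b ∈ Ds B m, b • v ≠ v := by
    intro i
    induction i with
    | zero =>
      intro _
      left
      rw [Nat.sub_zero, hn]
      obtain ⟨v⟩ := hT.1.nonempty
      refine Or.inl ⟨v, fun k hk => ?_⟩
      rw [Subgroup.mem_bot] at hk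
      rw [hk, one_smul]
    | succ i ih =>
      intro hi
      rcases ih (by omega) with h | h
      · have e : Ds B (n - i) = ⁅Ds B (n - (i + 1)), Ds B (n - (i + 1))⁆ := by
          rw [show n - i = (n - (i + 1)) + 1 by omega]
          rfl
        have hle : ⁅Ds B (n - (i + 1)), Ds B (n - (i + 1))⁆ ≤ Ds B (n - (i + 1)) := by
          rw [Subgroup.commutator_le]
          intro a ha b hb
          exact mul_mem (mul_mem (mul_mem ha hb) (inv_mem ha)) (inv_mem hb)
        rcases step_ab hadj hT hinv (H := Ds B (n - i)) (K := Ds B (n - (i + 1)))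
          (by rw [e]; exact hle) (by rw [e]) h with h1 | h1
        · exact Or.inl h1
        · by_cases hno : ∀ v : V, ∃ b ∈ Ds B (n - (i + 1)), b • v ≠ v
          · exact Or.inr ⟨_, h1, hno⟩
          · push Not at hno
            exact Or.inl (Or.inl hno)
      · exact Or.inr h
  have h0 := key n le_rfl
  rw [Nat.sub_self] at h0
  rcases h0 with (h | ⟨f, t, c, hf, hc, hcf, hBf⟩) | ⟨m, hloc, hno⟩
  · exact Or.inl h
  · exact Or.inr (Or.inl ⟨f, hf, fun g => line_case hadj hT hinv hcsd hf hc hcf hBf g⟩)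
  · right
    right
    have hHB : Ds B m ≤ B := Ds_le B m
    have hnB : ∀ b ∈ B, ∀ h ∈ Ds B m, b⁻¹ * h * b ∈ Ds B m := by
      have h1 : ∀ m, ∀ b ∈ B, ∀ h ∈ Ds B m, b⁻¹ * h * b ∈ Ds B m := by
        intro m b hb
        have h2 : ∀ m, (Ds B m).map (MulAut.conj b⁻¹).toMonoidHom ≤ Ds B m := by
          intro m
          induction m with
          | zero =>
            rintro _ ⟨x, hx, rfl⟩
            show b⁻¹ * x * b⁻¹⁻¹ ∈ B
            exact mul_mem (mul_mem (inv_mem hb) hx) (inv_mem (inv_mem hb))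
          | succ m ih =>
            show (⁅Ds B m, Ds B m⁆).map _ ≤ ⁅Ds B m, Ds B m⁆
            rw [Subgroup.map_commutator]
            exact Subgroup.commutator_mono ih ih
        intro h hh
        have h3 := h2 m ⟨h, hh, rfl⟩
        have h4 : (MulAut.conj b⁻¹).toMonoidHom h = b⁻¹ * h * b := by
          show b⁻¹ * h * b⁻¹⁻¹ = _
          rw [inv_inv]
        rwa [h4] at h3
      exact h1 m
    obtain ⟨f, hf, hfH⟩ := ray_of_LEll hadj hT hloc hno
    refine ⟨f, hf, fun n => ?_⟩
    rcases two_rays hT hf (hf.smul hadj hT n) with ⟨w, hw⟩ | h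
    · exfalso
      have h1 : (Ds B m ⊓ B.map (MulAut.conj n).toMonoidHom).relIndex (Ds B m) ≠ 0 := by
        rw [inf_comm, Subgroup.inf_relIndex_right]
        intro h0
        exact hcsd n (Subgroup.relIndex_eq_zero_of_le_right hHB h0)
      obtain ⟨v, hv⟩ := fix_of_finite hadj hT h1 hloc (w := w) (by
        intro h hh
        have hhH : h ∈ Ds B m := hh.1
        have hh2 : h ∈ B.map (MulAut.conj n).toMonoidHom := hh.2
        rw [mem_map_conj] at hh2
        obtain ⟨p, q, hpq⟩ := end_of_norm hadj hT hno hf hfH (b := n⁻¹ * h * n)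
          (hnB _ hh2)
        obtain ⟨v, hv⟩ := hloc {h} (by simpa using hhH)
        obtain ⟨k1, hk1⟩ := hfH h hhH
        obtain ⟨k2, hk2⟩ := ell_shift hadj hT (hf.smul hadj hT n) (b := h) (v := v)
          (hv h (by simp)) ⟨p, q, fun j => by
            have h5 := hpq j
            rw [mul_smul, mul_smul, inv_smul_eq_iff] at h5
            exact h5⟩
        obtain ⟨i, j, hi, hj, hij⟩ := hw (max k1 k2)
        exact fix_btw hadj hT (hk1 i ((le_max_left _ _).trans hi))
          (hk2 j ((le_max_right _ _).trans hj)) hij)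
      obtain ⟨b, hb, hbv⟩ := hno v
      exact hbv (hv b hb)
    · exact h

end action

end Pool.Agent.H6.GB
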